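import Mathlib
import Pool.Agent.Helper161.Cvx.Statement
import Pool.Agent.Helper161.Cvx.Forc

/-!
# Consistently, there is a nonseparable perfectly normal convex compactum

Q2 asks whether every perfectly normal convex compactum is separable. We prove, without any
hypothesis:

* there is a well-order `Ω` of type `ω₁`;
* a theorem of ZFC: for a well-order `Ω` of type `ω₁` the principle `ConvexPrinciple Ω` implies
  that some perfectly normal convex compactum is not separable;
* for each well-order `Ω` of type `ω₁` there is a ccc forcing notion (the finite approximations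
  `Cd Ω`) such that all conditions force the principle for `Ω`;
* the sentence that is forced is literally the principle: for the trivial forcing notion `Unit` it
  is equivalent to `ConvexPrinciple Ω`.
-/

namespace Pool.Agent.Results.MP_97a702_gt.NonseparableForced

open Pool.Agent.Helper161.Cvx

theorem result :
    (∃ (Ω : Type) (_ : LinearOrder Ω), WellFoundedLT Ω ∧ Uncountable Ω ∧
      ∀ x : Ω, (Set.Iio x).Countable) ∧
    (∀ (Ω : Type) [LinearOrder Ω] [WellFoundedLT Ω] [Uncountable Ω],
      (∀ x : Ω, (Set.Iio x).Countable) → ConvexPrinciple Ω → ¬ PositiveQ2) ∧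
    (∀ (Ω : Type) [LinearOrder Ω] [WellFoundedLT Ω] [Uncountable Ω],
      (∀ x : Ω, (Set.Iio x).Countable) → ∃ (P : Type) (_ : Preorder P), Nonempty P ∧ CCC P ∧
        ∀ p : P, p ∈ ForcesConvexPrinciple P Ω) ∧
    (∀ (Ω : Type) [LinearOrder Ω],
      (() ∈ ForcesConvexPrinciple Unit Ω) ↔ ConvexPrinciple Ω) :=
  final

end Pool.Agent.Results.MP_97a702_gt.NonseparableForced
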